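import Pool.Agent.H25.MF.ALL

set_option autoImplicit false

open Filter Pool.Agent.H25.MF

namespace Pool.Agent.Results.MP_118735_nt.Duality

/-- The upper limit of `M(x)/√x` as `x → ∞` is equal to the upper limit of `√y (2 - R(y))` as
`y → ∞`, where `R` is the entire function of the explicit formula for `M`, and to the supremum of
`(M(x) + 2 - R(1/x))/√x` over all `x > 0`; the same for the lower limits and the infimum. -/
theorem result :
    (limsup (fun x : ℝ => ((M x / √x : ℝ) : EReal)) atTop =
        limsup (fun y : ℝ => ((√y * (2 - R y) : ℝ) : EReal)) atTop ∧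
      limsup (fun x : ℝ => ((M x / √x : ℝ) : EReal)) atTop =
        ⨆ x : {x : ℝ // 0 < x}, (((M x + 2 - R (1 / x)) / √x : ℝ) : EReal)) ∧
    (liminf (fun x : ℝ => ((M x / √x : ℝ) : EReal)) atTop =
        liminf (fun y : ℝ => ((√y * (2 - R y) : ℝ) : EReal)) atTop ∧
      liminf (fun x : ℝ => ((M x / √x : ℝ) : EReal)) atTop =
        ⨅ x : {x : ℝ // 0 < x}, (((M x + 2 - R (1 / x)) / √x : ℝ) : EReal)) :=
  duality Asm.all

end Pool.Agent.Results.MP_118735_nt.Duality
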