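import Pool.Agent.H25.MF.ALL

set_option autoImplicit false

open Filter Pool.Agent.H25.MF

namespace Pool.Agent.Results.MP_118735_nt.ShortIntervals

/-- (1) For a finite set `J` of positive reals with largest element `A` and real coefficients with
`∑_{a ≠ A} |c_a| √a < |c_A| √A` the upper limit of `∑ c_a M(a x) / √x` is the supremum over all
`x > 0` of the same combination of the functions `M(x) + 2 - R(1/x)`, and the same for the lower
limit. (2) For every `ε > 0` and all `a > 1` close to `1` there are arbitrarily large `x` with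
`M(a x) - M(x) ≥ (1 - ε) √x` and arbitrarily large `x` with
`M(a x) - M(x) ≤ -(1/√2 - ε) √x`. -/
theorem result :
    (∀ (J : Finset ℝ) (c : ℝ → ℝ) (A : ℝ), A ∈ J → (∀ a ∈ J, 0 < a ∧ a ≤ A) →
      ∑ a ∈ J.erase A, |c a| * √a < |c A| * √A →
      limsup (fun x : ℝ => (((∑ a ∈ J, c a * M (a * x)) / √x : ℝ) : EReal)) atTop =
        ⨆ x : {x : ℝ // 0 < x},
          (((∑ a ∈ J, c a * (M (a * x) + 2 - R (1 / (a * x)))) / √x : ℝ) : EReal) ∧
      liminf (fun x : ℝ => (((∑ a ∈ J, c a * M (a * x)) / √x : ℝ) : EReal)) atTop =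
        ⨅ x : {x : ℝ // 0 < x},
          (((∑ a ∈ J, c a * (M (a * x) + 2 - R (1 / (a * x)))) / √x : ℝ) : EReal)) ∧
    (∀ ε : ℝ, 0 < ε → ∃ a₀ : ℝ, 1 < a₀ ∧ ∀ a : ℝ, 1 < a → a < a₀ →
      (∃ᶠ x in atTop, (1 - ε) * √x ≤ M (a * x) - M x) ∧
      (∃ᶠ x in atTop, M (a * x) - M x ≤ -((1 / √2 - ε) * √x))) :=
  ⟨fun J c A h1 h2 h3 => ⟨sup_comb Asm.all J c A ⟨h1, h2, h3⟩, inf_comb Asm.all J c A ⟨h1, h2, h3⟩⟩,
    short Asm.all⟩

end Pool.Agent.Results.MP_118735_nt.ShortIntervals
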